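import Pool.Agent.helper70.LZ.SpecZ

/-!
# Row ZX0 of project LE, block BOUND-Z (MP_baa4d7_al): the character `η₀`
-/

set_option autoImplicit false

namespace Pool.Agent.LE

open Pool.Agent.helper58.DC Pool.Agent.DI Pool.Agent.GR Pool.Agent.OB Pool.Agent.DR Pool.Agent.FI Pool.Agent.FI3 Pool.Agent.FI4

theorem ZX0_reg {G : Type} [Group G] [Finite G] {p : ℕ} (hp : p.Prime) {x s y k : G} (hx : ¬ p ∣ orderOf x) (hs : PEl p s)
    (hc : s * x = x * s) (hy : PReg p y) (h : k * y * k⁻¹ = x * s) : k * y * k⁻¹ = x := by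
  obtain ⟨j, hj⟩ := hs
  have h1 : orderOf s ∣ p ^ j := orderOf_dvd_of_pow_eq_one hj
  obtain ⟨i, -, hi⟩ := (Nat.dvd_prime_pow hp).1 h1
  have h2 : orderOf (k * y * k⁻¹) = orderOf y := MulEquiv.orderOf_eq (MulAut.conj k) y
  have hco : (orderOf x).Coprime (orderOf s) := by
    rw [hi]
    exact Nat.Coprime.pow_right i ((Nat.Prime.coprime_iff_not_dvd hp).2 hx).symm
  have h3 : orderOf (x * s) = orderOf x * orderOf s := (show Commute x s from hc.symm).orderOf_mul_eq_mul_orderOf_of_coprime hco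
  by_cases hi0 : i = 0
  · rw [hi0, pow_zero, orderOf_eq_one_iff] at hi
    rw [h, hi, mul_one]
  · exfalso
    apply hy
    rw [← h2, h, h3, hi]
    exact (dvd_pow_self p hi0).mul_left _

theorem ZX0_exp (hZL1 : ZL1_stmt) (hB2 : B2_stmt) (p : ℕ) (M : Ideal (integralClosure ℤ ℂ)) (hS : Setup p M) (G : Type) [Group G]
    [Finite G] (K : Subgroup G) (n : ℕ) : ∀ f : G → ℂ, (∀ x, IntAt M (f x)) → (∀ k ∈ K, ∀ x, f (k * x * k⁻¹) = f x) →
    {x : G | x ∈ K ∧ PReg p x ∧ f x ≠ 0}.ncard ≤ n →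
    ∃ a : (G → ℂ) → ℂ, (∀ η, IntAt M (a η)) ∧ ∀ v ∈ K, PReg p v → f v = ∑ᶠ η ∈ IrrOn K, a η * η v := by
  have hfin : (IrrOn K).Finite := (hB2 G K).1
  induction n with
  | zero =>
    intro f _ _ hn
    refine ⟨fun _ => 0, fun _ => IntAt.zero hS, fun v hv hp => ?_⟩
    have h0 : {x : G | x ∈ K ∧ PReg p x ∧ f x ≠ 0} = ∅ := (Set.ncard_eq_zero (Set.toFinite _)).1 (Nat.le_zero.1 hn)
    have h1 : f v = 0 := by
      by_contra h2
      have h3 : v ∈ {x : G | x ∈ K ∧ PReg p x ∧ f x ≠ 0} := ⟨hv, hp, h2⟩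
      rw [h0] at h3
      exact h3
    rw [h1]
    simp only [zero_mul, finsum_zero]
  | succ n ih =>
    intro f hf hcf hn
    by_cases hex : ∃ x, x ∈ K ∧ PReg p x ∧ f x ≠ 0
    · obtain ⟨x, hxK, hxp, hx0⟩ := hex
      obtain ⟨c, N, hN, hc, hcx, hcy⟩ := hZL1 p hS.pr G K x hxK hxp
      have hNM : ¬ InM M (N : ℂ) := fun h => hN ((InM.natCast hS N).1 h)
      have hN0 : (N : ℂ) ≠ 0 := by
        intro h
        apply hNM
        rw [h]
        exact InM.zero hS
      have hfx : IntAt M (f x * (N : ℂ)⁻¹) := IntAt.mul hS (hf x) (IntAt.inv hS (IntAt.natCast hS N) hNM)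
      obtain ⟨a, ha, hav⟩ := ih (fun y => f y - (f x * (N : ℂ)⁻¹) * ∑ᶠ η ∈ IrrOn K, c η * η y) (fun y => by
          refine IntAt.sub hS (hf y) (IntAt.mul hS hfx (IntAt.finsum_mem hS fun η hη => ?_))
          exact IntAt.of_isIntegral hS ((hc η).mul (((hB2 G K).2 η hη).2.2.1 y)))
        (fun k hk y => by
          show f (k * y * k⁻¹) - (f x * (N : ℂ)⁻¹) * ∑ᶠ η ∈ IrrOn K, c η * η (k * y * k⁻¹) = f y - (f x * (N : ℂ)⁻¹) * ∑ᶠ η ∈ IrrOn K, c η * η y
          rw [hcf k hk y]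
          congr 2
          exact finsum_mem_congr rfl fun η hη => by rw [((hB2 G K).2 η hη).2.1 y k hk])
        (by
          refine Nat.lt_succ_iff.1 (lt_of_lt_of_le (Set.ncard_lt_ncard ⟨?_, ?_⟩ (Set.toFinite _)) hn)
          · rintro y ⟨hyK, hyp, hy0⟩
            refine ⟨hyK, hyp, fun hfy => ?_⟩
            have h1 : ∑ᶠ η ∈ IrrOn K, c η * η y ≠ 0 := by
              intro h2
              apply hy0
              show f y - (f x * (N : ℂ)⁻¹) * ∑ᶠ η ∈ IrrOn K, c η * η y = 0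
              rw [h2, mul_zero, sub_zero, hfy]
            obtain ⟨k, hk, s, -, hs, hsx, hks⟩ := hcy y hyK h1
            have h3 := ZX0_reg hS.pr hxp hs hsx hyp hks
            have h4 := hcf k hk y
            rw [h3, hfy] at h4
            exact hx0 h4
          · intro hsub
            have h1 := (hsub (show x ∈ {x : G | x ∈ K ∧ PReg p x ∧ f x ≠ 0} from ⟨hxK, hxp, hx0⟩)).2.2
            apply h1
            show f x - (f x * (N : ℂ)⁻¹) * ∑ᶠ η ∈ IrrOn K, c η * η x = 0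
            rw [hcx]
            field_simp
            ring)
      refine ⟨fun η => a η + (f x * (N : ℂ)⁻¹) * c η, fun η => IntAt.add hS (ha η) (IntAt.mul hS hfx (IntAt.of_isIntegral hS (hc η))), fun v hv hp => ?_⟩
      have h1 := hav v hv hp
      rw [sub_eq_iff_eq_add] at h1
      rw [h1, finsum_mem_eq_finite_toFinset_sum _ hfin, finsum_mem_eq_finite_toFinset_sum _ hfin, finsum_mem_eq_finite_toFinset_sum _ hfin,
        Finset.mul_sum, ← Finset.sum_add_distrib]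
      exact Finset.sum_congr rfl fun η _ => by ring
    · refine ih f hf hcf ?_
      have h0 : {x : G | x ∈ K ∧ PReg p x ∧ f x ≠ 0} = ∅ := by
        rw [Set.eq_empty_iff_forall_notMem]
        exact fun x hx => hex ⟨x, hx⟩
      rw [h0, Set.ncard_empty]
      exact Nat.zero_le _

theorem ZX0_kap {G : Type} [Group G] [Finite G] (hB2 : B2_stmt) (p : ℕ) (M : Ideal (integralClosure ℤ ℂ)) (hS : Setup p M)
    (K : Subgroup G) (η : G → ℂ) (hη : η ∈ IrrOn K) : CF K (kap p K η) ∧ ∀ x, IntAt M (kap p K η x) := by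
  classical
  have h := (hB2 G K).2 η hη
  refine ⟨⟨fun k hk v => ?_, fun v hv => ?_⟩, fun v => ?_⟩
  · unfold kap
    have h1 : (k * v * k⁻¹ ∈ K ∧ PReg p (k * v * k⁻¹)) ↔ (v ∈ K ∧ PReg p v) := by
      have h2 : orderOf (k * v * k⁻¹) = orderOf v := MulEquiv.orderOf_eq (MulAut.conj k) v
      unfold PReg
      rw [h2, K.mul_mem_cancel_right (K.inv_mem hk), K.mul_mem_cancel_left hk]
    have h3 : (k * v * k⁻¹)⁻¹ = k * v⁻¹ * k⁻¹ := by group
    rw [if_congr h1 rfl rfl, h3, h.2.1 v⁻¹ k hk]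
  · unfold kap
    rw [if_neg fun h1 => hv h1.1]
  · unfold kap
    split_ifs
    · exact IntAt.of_isIntegral hS (h.2.2.1 _)
    · exact IntAt.zero hS

theorem ZX0_cc {G : Type} [Group G] [Finite G] (p : ℕ) (K : Subgroup G) (ψ η : G → ℂ) (h : EE p K ψ η = 0) :
    cc ψ (kap p K η) = 0 := by
  classical
  have hc : (Nat.card K : ℂ) ≠ 0 := by exact_mod_cast Nat.card_pos.ne'
  unfold EE at h
  have h1 := (div_eq_zero_iff.1 h).resolve_right hc
  rw [finsum_mem_def] at h1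
  unfold cc
  have h2 : (fun x => kap p K η x * ψ x) = Set.indicator {v : G | v ∈ K ∧ PReg p v} (fun v => ψ v * η v⁻¹) := by
    funext v
    unfold kap
    by_cases hv : v ∈ K ∧ PReg p v
    · rw [if_pos hv, Set.indicator_of_mem (show v ∈ {v : G | v ∈ K ∧ PReg p v} from hv), mul_comm]
    · rw [if_neg hv, Set.indicator_of_notMem (show v ∉ {v : G | v ∈ K ∧ PReg p v} from hv), zero_mul]
  rw [h2, h1, zero_div]

theorem ZX0 (hZL1 : ZL1_stmt) (hBLE : BLE_stmt) (hSBI : SBI_stmt) (hEXB : EXB_stmt) (hQEI : QEI_stmt) (hB2 : B2_stmt) : ZX0_stmt := by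
  classical
  intro p M hS G _ _ D x θ χ lo P hP
  obtain ⟨K, hK⟩ : ∃ K : Subgroup G, K = cz P := ⟨_, rfl⟩
  rw [← hK]
  have hft : Fintype G := Fintype.ofFinite G
  have hfin : (IrrOn K).Finite := (hB2 G K).1
  have hDK : D ≤ K := by
    intro d hd
    rw [hK, Subgroup.mem_centralizer_iff]
    intro q hq
    exact lo.rt.com q (hP hq) d hd
  have hcK : K ⊓ cz D = cz D := by
    rw [inf_eq_right, hK]
    exact Subgroup.centralizer_le hP
  obtain ⟨ψ, hψ, hSB⟩ := hEXB p M hS G K D lo.rt.dfa.pgrp hDK θ (by rw [hcK]; exact lo.rt.th)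
  obtain ⟨b1, b2, b3, -, b5, -, b7, b8⟩ := hBLE p M hS G K K le_rfl θ
  rw [b8] at b1 b2 b3 b5 b7
  have hψb : ψ ∈ Bl M K θ := ⟨hψ, hSB.symm⟩
  obtain ⟨e, he⟩ : ∃ e : G → ℂ, e = eS K (Bl M K θ) := ⟨_, rfl⟩
  rw [← he] at b2 b3 b5 b7
  obtain ⟨a, ha, hav⟩ := ZX0_exp hZL1 hB2 p M hS G K _ (fun v => e v⁻¹) (fun v => b3 _) (fun k hk v => by
    have h1 : (k * v * k⁻¹)⁻¹ = k * v⁻¹ * k⁻¹ := by group
    show e (k * v * k⁻¹)⁻¹ = e v⁻¹
    rw [h1, b2.1 k hk]) le_rfl
  have hee : ∀ v, e v = ∑ η ∈ hfin.toFinset, a η * kap p K η v := by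
    intro v
    by_cases hv : v ∈ K ∧ PReg p v
    · have h1 := hav v⁻¹ (K.inv_mem hv.1) (by unfold PReg; rw [orderOf_inv]; exact hv.2)
      rw [inv_inv, finsum_mem_eq_finite_toFinset_sum _ hfin] at h1
      rw [h1]
      refine Finset.sum_congr rfl fun η _ => ?_
      unfold kap
      rw [if_pos hv]
    · have h1 : e v = 0 := by
        by_cases h2 : v ∈ K
        · exact b7 v fun h3 => hv ⟨h2, h3⟩
        · exact b2.2 v h2
      rw [h1]
      refine (Finset.sum_eq_zero fun η _ => ?_).symm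
      unfold kap
      rw [if_neg hv, mul_zero]
  have hcc : cc θ e = ∑ η ∈ hfin.toFinset, a η * cc θ (kap p K η) := by
    unfold cc
    rw [finsum_eq_sum_of_fintype]
    have h1 : ∀ η, a η * ((∑ᶠ x, kap p K η x * θ x) / θ 1) = (∑ x, a η * kap p K η x * θ x) / θ 1 := by
      intro η
      rw [finsum_eq_sum_of_fintype, mul_div_assoc', Finset.mul_sum]
      congr 1
      exact Finset.sum_congr rfl fun x _ => by ring
    rw [Finset.sum_congr rfl fun η _ => h1 η, ← Finset.sum_div, Finset.sum_comm]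
    congr 1
    refine Finset.sum_congr rfl fun x _ => ?_
    rw [hee x, Finset.sum_mul]
  by_contra hcon
  push Not at hcon
  have hall : ∀ η ∈ IrrOn K, InM M (cc θ (kap p K η)) := by
    intro η hη
    by_cases hb : η ∈ Bl M K θ
    · exact hcon η hb
    · have h1 := ((hQEI p M hS G K (Bl M K θ) b1).2.1 ψ hψb η hη hb).1
      have h2 := ZX0_cc p K ψ η h1
      obtain ⟨h3, h4⟩ := ZX0_kap hB2 p M hS K η hη
      have h5 := (hSBI p M hS G K θ ψ hSB).1 _ h3 h4
      rw [h2, sub_zero] at h5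
      exact h5
  have h6 : InM M (cc θ e) := by
    rw [hcc]
    refine InM.sum hS _ fun η hη => ?_
    exact InM.mul_left hS (ha η) (hall η (hfin.mem_toFinset.1 hη))
  have h7 := (hSBI p M hS G K θ ψ hSB).1 e b2 b3
  rw [b5 ψ hψb] at h7
  have h8 := InM.sub hS h6 h7
  rw [sub_sub_cancel] at h8
  exact InM.not_one hS h8

end Pool.Agent.LE
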